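import Mathlib

/-!
# No exponential orthonormal basis for overlapping symmetric additive spaces

For `-1 < t < 0` the measure `μ_t = m_{[t,t+1]} ⊗ δ_0 + δ_0 ⊗ m_{[t,t+1]}` on the plane has no
orthonormal basis of (normalised) exponentials.

The proof: let `T(s) = max (ε - |s|, 0)`, whose Fourier transform is nonnegative. The function `F`
equal to `T` on the first segment and zero on the second one is orthogonal to the function `G` equal
to `T` on the second segment and zero on the first one. By Parseval `0 = ⟨F, G⟩` is a sum of the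
nonnegative numbers `T^(λ_1) T^(λ_2) / 2`, so all of them vanish, and this is false when `ε` is small.
-/

set_option autoImplicit false

namespace Pool.Agent.Results.MP_476b1b_an.NoOrthonormalBasis

open MeasureTheory Set Complex
open scoped ENNReal NNReal ComplexConjugate InnerProductSpace

/-- The measure `μ_t = m_{I_t} ⊗ δ_0 + δ_0 ⊗ m_{I_t}` on the plane, `I_t = [t, t+1]`. -/
noncomputable def mu (t : ℝ) : Measure (ℝ × ℝ) :=
  (volume.restrict (Icc t (t + 1))).prod (Measure.dirac (0 : ℝ)) +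
    (Measure.dirac (0 : ℝ)).prod (volume.restrict (Icc t (t + 1)))

/-- The exponential `e_l(x,y) = exp(2πi(l_1 x + l_2 y))`. -/
noncomputable def expo (l : ℝ × ℝ) (z : ℝ × ℝ) : ℂ :=
  cexp (2 * Real.pi * I * ((l.1 * z.1 + l.2 * z.2 : ℝ) : ℂ))

/-- The set `L` of frequencies gives an exponential orthonormal basis of `L²(μ_t)`: the normalised
exponentials `e_l / √2`, `l ∈ L`, are an orthonormal basis (a Hilbert basis indexed by `L`). -/
def IsExponentialONB (t : ℝ) (L : Set (ℝ × ℝ)) : Prop :=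
  ∃ b : HilbertBasis L ℂ (Lp ℂ 2 (mu t)),
    ∀ l : L, (b l : ℝ × ℝ → ℂ) =ᵐ[mu t] fun z => ((Real.sqrt 2 : ℝ) : ℂ)⁻¹ * expo l z

lemma mu_eq (t : ℝ) : mu t = (volume.restrict (Icc t (t + 1))).map (fun x : ℝ => (x, (0 : ℝ))) +
    (volume.restrict (Icc t (t + 1))).map (fun y : ℝ => ((0 : ℝ), y)) := by
  unfold mu
  rw [Measure.prod_dirac, Measure.dirac_prod]

instance (t : ℝ) : IsFiniteMeasure (mu t) := by
  unfold mu
  infer_instance

lemma integral_mu (t : ℝ) (f : ℝ × ℝ → ℂ) (hf : Measurable f) (M : ℝ) (hM : ∀ z, ‖f z‖ ≤ M) :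
    ∫ z, f z ∂(mu t) = (∫ x in Icc t (t + 1), f (x, 0)) + ∫ y in Icc t (t + 1), f (0, y) := by
  have m1 : Measurable (fun x : ℝ => (x, (0 : ℝ))) := by fun_prop
  have m2 : Measurable (fun y : ℝ => ((0 : ℝ), y)) := by fun_prop
  rw [mu_eq, integral_add_measure, integral_map m1.aemeasurable hf.aestronglyMeasurable,
    integral_map m2.aemeasurable hf.aestronglyMeasurable]
  · have : IsFiniteMeasure ((volume.restrict (Icc t (t + 1))).map (fun x : ℝ => (x, (0 : ℝ)))) :=
      inferInstance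
    exact Integrable.of_bound hf.aestronglyMeasurable M (ae_of_all _ hM)
  · have : IsFiniteMeasure ((volume.restrict (Icc t (t + 1))).map (fun y : ℝ => ((0 : ℝ), y))) :=
      inferInstance
    exact Integrable.of_bound hf.aestronglyMeasurable M (ae_of_all _ hM)

/-- the triangle function -/
noncomputable def tri (e : ℝ) (x : ℝ) : ℝ := max (e - |x|) 0

lemma tri_cont (e : ℝ) : Continuous (tri e) := by
  unfold tri
  fun_prop

lemma tri_nonneg (e x : ℝ) : 0 ≤ tri e x := le_max_right _ _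

lemma tri_le (e x : ℝ) (he : 0 ≤ e) : tri e x ≤ e := by
  unfold tri
  refine max_le ?_ he
  have := abs_nonneg x
  linarith

lemma tri_neg (e x : ℝ) : tri e (-x) = tri e x := by
  unfold tri
  rw [abs_neg]

lemma tri_zero_of (e x : ℝ) (h : e ≤ |x|) : tri e x = 0 := by
  unfold tri
  exact max_eq_right (by linarith)

lemma tri_of (e x : ℝ) (h0 : 0 ≤ x) (h : x ≤ e) : tri e x = e - x := by
  unfold tri
  rw [abs_of_nonneg h0]
  exact max_eq_left (by linarith)

/-- the half of the Fourier integral of the triangle function -/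
lemma half (e a : ℝ) (ha : a ≠ 0) (he : 0 < e) :
    ∫ x in (0 : ℝ)..e, ((tri e x : ℝ) : ℂ) * cexp (I * a * x) =
      I * e / a + (1 - cexp (I * a * e)) / (a : ℂ) ^ 2 := by
  have ha' : (a : ℂ) ≠ 0 := by exact_mod_cast ha
  have h1 : ∫ x in (0 : ℝ)..e, ((tri e x : ℝ) : ℂ) * cexp (I * a * x) =
      ∫ x in (0 : ℝ)..e, ((e : ℂ) - x) * cexp (I * a * x) := by
    apply intervalIntegral.integral_congr
    intro x hx
    rw [uIcc_of_le he.le] at hx
    simp only
    rw [tri_of e x hx.1 hx.2]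
    push_cast
    ring
  rw [h1]
  have hd : ∀ x : ℝ, HasDerivAt (fun x : ℝ => ((e : ℂ) - x) * cexp (I * a * x) / (I * a) +
      cexp (I * a * x) / (I * a) ^ 2) (((e : ℂ) - x) * cexp (I * a * x)) x := by
    intro x
    have h2 : HasDerivAt (fun x : ℝ => (x : ℂ)) 1 x := Complex.ofRealCLM.hasDerivAt
    have h3 : HasDerivAt (fun x : ℝ => cexp (I * a * x)) (cexp (I * a * x) * (I * a)) x := by
      have := (h2.const_mul (I * a)).cexp
      simpa using this
    have h4 : HasDerivAt (fun x : ℝ => (e : ℂ) - x) (-1) x := by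
      simpa using h2.const_sub (e : ℂ)
    have h5 := ((h4.mul h3).div_const (I * a)).add (h3.div_const ((I * a) ^ 2))
    refine h5.congr_deriv ?_
    have hI : I * (a : ℂ) ≠ 0 := mul_ne_zero I_ne_zero ha'
    field_simp
    ring
  have hc : Continuous fun x : ℝ => ((e : ℂ) - x) * cexp (I * a * x) := by fun_prop
  rw [intervalIntegral.integral_eq_sub_of_hasDerivAt (fun x _ => hd x) (hc.intervalIntegrable _ _)]
  have hI2 : (I : ℂ) ^ 2 = -1 := I_sq
  simp only [sub_self, zero_mul, zero_div, ofReal_zero, mul_zero, Complex.exp_zero, sub_zero, mul_one]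
  rw [mul_pow, hI2]
  field_simp
  linear_combination (-(e : ℂ) * a) * hI2

/-- the Fourier transform of the triangle function, `a ≠ 0` -/
lemma full (e a : ℝ) (ha : a ≠ 0) (he : 0 < e) :
    ∫ x in (-e)..e, ((tri e x : ℝ) : ℂ) * cexp (I * a * x) =
      ((2 * (1 - Real.cos (a * e)) / a ^ 2 : ℝ) : ℂ) := by
  have hc : ∀ b : ℝ, Continuous fun x : ℝ => ((tri e x : ℝ) : ℂ) * cexp (I * b * x) := by
    intro b
    have := tri_cont e
    fun_prop
  rw [← intervalIntegral.integral_add_adjacent_intervals ((hc a).intervalIntegrable (-e) 0)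
    ((hc a).intervalIntegrable 0 e), half e a ha he]
  have h1 : ∫ x in (-e)..0, ((tri e x : ℝ) : ℂ) * cexp (I * a * x) =
      ∫ x in (0 : ℝ)..e, ((tri e x : ℝ) : ℂ) * cexp (I * (-a : ℝ) * x) := by
    have := intervalIntegral.integral_comp_neg (a := 0) (b := e)
      (fun x : ℝ => ((tri e x : ℝ) : ℂ) * cexp (I * a * x))
    rw [neg_zero] at this
    rw [← this]
    congr 1
    ext x
    rw [tri_neg]
    congr 2
    push_cast
    ring
  rw [h1, half e (-a) (neg_ne_zero.mpr ha) he]
  have ha' : (a : ℂ) ≠ 0 := by exact_mod_cast ha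
  have h2 : cexp (I * (a : ℂ) * e) = Complex.cos (a * e) + Complex.sin (a * e) * I := by
    rw [← Complex.exp_mul_I]
    congr 1
    ring
  have h3 : cexp (I * ((-a : ℝ) : ℂ) * e) = Complex.cos (a * e) - Complex.sin (a * e) * I := by
    have : I * ((-a : ℝ) : ℂ) * e = (-(a * e : ℂ)) * I := by
      push_cast
      ring
    rw [this, Complex.exp_mul_I, Complex.cos_neg, Complex.sin_neg]
    ring
  rw [h2, h3]
  push_cast
  field_simp
  ring

/-- the Fourier transform of the triangle function at `0` -/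
lemma full_zero (e : ℝ) (he : 0 < e) :
    ∫ x in (-e)..e, ((tri e x : ℝ) : ℂ) * cexp (I * (0 : ℝ) * x) = ((e ^ 2 : ℝ) : ℂ) := by
  have h0 : ∀ x : ℝ, ((tri e x : ℝ) : ℂ) * cexp (I * (0 : ℝ) * x) = ((tri e x : ℝ) : ℂ) := by
    intro x
    simp
  simp only [h0]
  rw [intervalIntegral.integral_ofReal]
  congr 1
  have hc := tri_cont e
  rw [← intervalIntegral.integral_add_adjacent_intervals (hc.intervalIntegrable (-e) 0)
    (hc.intervalIntegrable 0 e)]
  have h1 : ∫ x in (-e)..0, tri e x = ∫ x in (0 : ℝ)..e, tri e x := by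
    have := intervalIntegral.integral_comp_neg (a := 0) (b := e) (fun x : ℝ => tri e x)
    rw [neg_zero] at this
    rw [← this]
    congr 1
    ext x
    rw [tri_neg]
  have h2 : ∫ x in (0 : ℝ)..e, tri e x = ∫ x in (0 : ℝ)..e, (e - x) := by
    apply intervalIntegral.integral_congr
    intro x hx
    rw [uIcc_of_le he.le] at hx
    exact tri_of e x hx.1 hx.2
  have h3 : ∫ x in (0 : ℝ)..e, (e - x) = e ^ 2 / 2 := by
    rw [intervalIntegral.integral_sub (by simp) (by simp), intervalIntegral.integral_const,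
      integral_id, smul_eq_mul]
    ring
  rw [h1, h2, h3]
  ring

/-- The value of the Fourier transform of the triangle function. -/
noncomputable def J (e a : ℝ) : ℝ := if a = 0 then e ^ 2 else 2 * (1 - Real.cos (a * e)) / a ^ 2

lemma full_J (e a : ℝ) (he : 0 < e) :
    ∫ x in (-e)..e, ((tri e x : ℝ) : ℂ) * cexp (I * a * x) = ((J e a : ℝ) : ℂ) := by
  unfold J
  split_ifs with h
  · rw [h]
    exact full_zero e he
  · exact full e a h he

lemma J_nonneg (e a : ℝ) : 0 ≤ J e a := by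
  unfold J
  split_ifs with h
  · positivity
  · have := Real.cos_le_one (a * e)
    have h1 : 0 ≤ 1 - Real.cos (a * e) := by linarith
    positivity

lemma J_pos (e a : ℝ) (he : 0 < e) (h : |a| * e < 2 * Real.pi) : 0 < J e a := by
  unfold J
  split_ifs with h0
  · positivity
  · have h1 : Real.cos (a * e) ≠ 1 := by
      intro hc
      rw [Real.cos_eq_one_iff_of_lt_of_lt] at hc
      · rcases mul_eq_zero.mp hc with h2 | h2
        · exact h0 h2
        · exact he.ne' h2
      · have := neg_abs_le (a * e)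
        rw [abs_mul, abs_of_pos he] at this
        linarith
      · have := le_abs_self (a * e)
        rw [abs_mul, abs_of_pos he] at this
        linarith
    have h2 : 0 < 1 - Real.cos (a * e) := by
      have := lt_of_le_of_ne (Real.cos_le_one (a * e)) h1
      linarith
    positivity

/-- the test function on the first segment -/
noncomputable def F1 (e : ℝ) (z : ℝ × ℝ) : ℂ := if z.2 = 0 ∧ z.1 ≠ 0 then ((tri e z.1 : ℝ) : ℂ) else 0

/-- the test function on the second segment -/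
noncomputable def F2 (e : ℝ) (z : ℝ × ℝ) : ℂ := if z.1 = 0 ∧ z.2 ≠ 0 then ((tri e z.2 : ℝ) : ℂ) else 0

lemma F1_meas (e : ℝ) : Measurable (F1 e) := by
  unfold F1
  refine Measurable.ite ?_ ?_ measurable_const
  · exact (measurable_snd (measurableSet_singleton 0)).inter
      ((measurable_fst (measurableSet_singleton 0)).compl)
  · exact Complex.measurable_ofReal.comp ((tri_cont e).measurable.comp measurable_fst)

lemma F2_meas (e : ℝ) : Measurable (F2 e) := by
  unfold F2
  refine Measurable.ite ?_ ?_ measurable_const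
  · exact (measurable_fst (measurableSet_singleton 0)).inter
      ((measurable_snd (measurableSet_singleton 0)).compl)
  · exact Complex.measurable_ofReal.comp ((tri_cont e).measurable.comp measurable_snd)

lemma F1_bound (e : ℝ) (he : 0 ≤ e) (z : ℝ × ℝ) : ‖F1 e z‖ ≤ e := by
  unfold F1
  split_ifs
  · rw [Complex.norm_real, Real.norm_of_nonneg (tri_nonneg _ _)]
    exact tri_le _ _ he
  · simpa using he

lemma F2_bound (e : ℝ) (he : 0 ≤ e) (z : ℝ × ℝ) : ‖F2 e z‖ ≤ e := by
  unfold F2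
  split_ifs
  · rw [Complex.norm_real, Real.norm_of_nonneg (tri_nonneg _ _)]
    exact tri_le _ _ he
  · simpa using he

lemma expo_meas (l : ℝ × ℝ) : Measurable (expo l) := by
  unfold expo
  fun_prop

lemma expo_norm (l z : ℝ × ℝ) : ‖expo l z‖ = 1 := by
  unfold expo
  have : (2 * (Real.pi : ℂ) * I * ((l.1 * z.1 + l.2 * z.2 : ℝ) : ℂ)) =
      ((2 * Real.pi * (l.1 * z.1 + l.2 * z.2) : ℝ) : ℂ) * I := by
    push_cast
    ring
  rw [this, Complex.norm_exp_ofReal_mul_I]

lemma expo_x (l : ℝ × ℝ) (x : ℝ) : expo l (x, 0) = cexp (I * (2 * Real.pi * l.1 : ℝ) * x) := by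
  unfold expo
  congr 1
  push_cast
  ring

lemma expo_y (l : ℝ × ℝ) (y : ℝ) : expo l (0, y) = cexp (I * (2 * Real.pi * l.2 : ℝ) * y) := by
  unfold expo
  congr 1
  push_cast
  ring

lemma seg_integral (t e : ℝ) (he : 0 < e) (h1 : t ≤ -e) (h2 : e ≤ t + 1) (a : ℝ) :
    ∫ x in Icc t (t + 1), ((tri e x : ℝ) : ℂ) * cexp (I * a * x) = ((J e a : ℝ) : ℂ) := by
  rw [← full_J e a he, intervalIntegral.integral_of_le (by linarith), ← integral_Icc_eq_integral_Ioc]
  apply setIntegral_eq_of_subset_of_forall_sdiff_eq_zero measurableSet_Icc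
  · intro x hx
    exact ⟨h1.trans hx.1, hx.2.trans h2⟩
  · intro x hx
    have : e ≤ |x| := by
      by_contra hcon
      push Not at hcon
      rw [abs_lt] at hcon
      exact hx.2 ⟨hcon.1.le, hcon.2.le⟩
    rw [tri_zero_of e x this]
    simp

lemma ae_ne (t : ℝ) : ∀ᵐ x ∂(volume.restrict (Icc t (t + 1))), x ≠ (0 : ℝ) := by
  have h : ∀ᵐ x : ℝ, x ≠ (0 : ℝ) := by
    rw [ae_iff]
    simp
  exact ae_restrict_of_ae h

lemma int_F1 (t e : ℝ) (he : 0 < e) (h1 : t ≤ -e) (h2 : e ≤ t + 1) (l : ℝ × ℝ) :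
    ∫ z, F1 e z * expo l z ∂(mu t) = ((J e (2 * Real.pi * l.1) : ℝ) : ℂ) := by
  rw [integral_mu t (fun z => F1 e z * expo l z) ((F1_meas e).mul (expo_meas l)) e]
  · have e1 : ∫ x in Icc t (t + 1), F1 e (x, 0) * expo l (x, 0) =
        ∫ x in Icc t (t + 1), ((tri e x : ℝ) : ℂ) * cexp (I * (2 * Real.pi * l.1 : ℝ) * x) := by
      apply integral_congr_ae
      filter_upwards [ae_ne t] with x hx
      rw [expo_x]
      unfold F1
      rw [if_pos ⟨rfl, hx⟩]
    have e2 : ∫ y in Icc t (t + 1), F1 e (0, y) * expo l (0, y) = 0 := by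
      apply integral_eq_zero_of_ae
      filter_upwards with y
      unfold F1
      simp
    rw [e1, e2, add_zero]
    exact seg_integral t e he h1 h2 _
  · intro z
    rw [norm_mul, expo_norm, mul_one]
    exact F1_bound e he.le z

lemma int_F2 (t e : ℝ) (he : 0 < e) (h1 : t ≤ -e) (h2 : e ≤ t + 1) (l : ℝ × ℝ) :
    ∫ z, F2 e z * expo l z ∂(mu t) = ((J e (2 * Real.pi * l.2) : ℝ) : ℂ) := by
  rw [integral_mu t (fun z => F2 e z * expo l z) ((F2_meas e).mul (expo_meas l)) e]
  · have e1 : ∫ x in Icc t (t + 1), F2 e (0, x) * expo l (0, x) =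
        ∫ x in Icc t (t + 1), ((tri e x : ℝ) : ℂ) * cexp (I * (2 * Real.pi * l.2 : ℝ) * x) := by
      apply integral_congr_ae
      filter_upwards [ae_ne t] with x hx
      rw [expo_y]
      unfold F2
      rw [if_pos ⟨rfl, hx⟩]
    have e2 : ∫ y in Icc t (t + 1), F2 e (y, 0) * expo l (y, 0) = 0 := by
      apply integral_eq_zero_of_ae
      filter_upwards with y
      unfold F2
      simp
    rw [e1, e2, zero_add]
    exact seg_integral t e he h1 h2 _
  · intro z
    rw [norm_mul, expo_norm, mul_one]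
    exact F2_bound e he.le z

lemma F1_memLp (t e : ℝ) (he : 0 < e) : MemLp (F1 e) 2 (mu t) :=
  MemLp.of_bound (F1_meas e).aestronglyMeasurable e (ae_of_all _ (F1_bound e he.le))

lemma F2_memLp (t e : ℝ) (he : 0 < e) : MemLp (F2 e) 2 (mu t) :=
  MemLp.of_bound (F2_meas e).aestronglyMeasurable e (ae_of_all _ (F2_bound e he.le))

/-- conjugation of the real test functions -/
lemma conj_F1 (e : ℝ) (z : ℝ × ℝ) : conj (F1 e z) = F1 e z := by
  unfold F1
  split_ifs
  · exact Complex.conj_ofReal _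
  · simp

/-- **No exponential orthonormal basis for overlapping symmetric additive spaces.** For
`-1 < t < 0` (in particular for `-1/2 ≤ t < 0`) there is no set `L` of frequencies for which the
normalised exponentials `e_l / √2`, `l ∈ L`, are an orthonormal basis of `L²(μ_t)`. -/
theorem result (t : ℝ) (ht1 : -1 < t) (ht0 : t < 0) :
    ¬ ∃ L : Set (ℝ × ℝ), IsExponentialONB t L := by
  rintro ⟨L, b, hb⟩
  -- for small `e` all products `J e (2π l.1) * J e (2π l.2)` vanish
  have key : ∀ e : ℝ, 0 < e → t ≤ -e → e ≤ t + 1 → ∀ l : L,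
      J e (2 * Real.pi * (l : ℝ × ℝ).1) * J e (2 * Real.pi * (l : ℝ × ℝ).2) = 0 := by
    intro e he h1 h2
    set f : Lp ℂ 2 (mu t) := (F1_memLp t e he).toLp (F1 e) with hf
    set g : Lp ℂ 2 (mu t) := (F2_memLp t e he).toLp (F2 e) with hg
    have hfe : (f : ℝ × ℝ → ℂ) =ᵐ[mu t] F1 e := MemLp.coeFn_toLp _
    have hge : (g : ℝ × ℝ → ℂ) =ᵐ[mu t] F2 e := MemLp.coeFn_toLp _
    have hsum := b.hasSum_inner_mul_inner f g
    have h3 : ⟪f, g⟫_ℂ = 0 := by
      rw [L2.inner_def]
      apply integral_eq_zero_of_ae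
      filter_upwards [hfe, hge] with z hz1 hz2
      rw [hz1, hz2]
      unfold F1 F2
      by_cases ha : z.2 = 0 ∧ z.1 ≠ 0
      · have : ¬ (z.1 = 0 ∧ z.2 ≠ 0) := fun h => ha.2 h.1
        rw [if_neg this]
        simp
      · rw [if_neg ha]
        simp
    have h4 : ∀ l : L, ⟪f, b l⟫_ℂ =
        ((Real.sqrt 2 : ℝ) : ℂ)⁻¹ * ((J e (2 * Real.pi * (l : ℝ × ℝ).1) : ℝ) : ℂ) := by
      intro l
      rw [L2.inner_def, ← int_F1 t e he h1 h2 l, ← integral_const_mul]
      apply integral_congr_ae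
      filter_upwards [hfe, hb l] with z hz1 hz2
      rw [hz1, hz2, RCLike.inner_apply, conj_F1]
      ring
    have h5 : ∀ l : L, ⟪b l, g⟫_ℂ =
        ((Real.sqrt 2 : ℝ) : ℂ)⁻¹ * ((J e (2 * Real.pi * (l : ℝ × ℝ).2) : ℝ) : ℂ) := by
      intro l
      have h6 : ⟪g, b l⟫_ℂ =
          ((Real.sqrt 2 : ℝ) : ℂ)⁻¹ * ((J e (2 * Real.pi * (l : ℝ × ℝ).2) : ℝ) : ℂ) := by
        rw [L2.inner_def, ← int_F2 t e he h1 h2 l, ← integral_const_mul]
        apply integral_congr_ae
        filter_upwards [hge, hb l] with z hz1 hz2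
        rw [hz1, hz2, RCLike.inner_apply]
        have : conj (F2 e z) = F2 e z := by
          unfold F2
          split_ifs
          · exact Complex.conj_ofReal _
          · simp
        rw [this]
        ring
      rw [← inner_conj_symm, h6, map_mul, map_inv₀, Complex.conj_ofReal, Complex.conj_ofReal]
    have h7 : HasSum (fun l : L => (2 : ℝ)⁻¹ * (J e (2 * Real.pi * (l : ℝ × ℝ).1) *
        J e (2 * Real.pi * (l : ℝ × ℝ).2))) 0 := by
      rw [h3] at hsum
      have h8 : (fun l : L => ⟪f, b l⟫_ℂ * ⟪b l, g⟫_ℂ) = fun l : L =>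
          (((2 : ℝ)⁻¹ * (J e (2 * Real.pi * (l : ℝ × ℝ).1) *
            J e (2 * Real.pi * (l : ℝ × ℝ).2)) : ℝ) : ℂ) := by
        ext l
        rw [h4, h5]
        have hs : ((Real.sqrt 2 : ℝ) : ℂ)⁻¹ * ((Real.sqrt 2 : ℝ) : ℂ)⁻¹ = ((2 : ℝ)⁻¹ : ℝ) := by
          rw [← Complex.ofReal_inv, ← Complex.ofReal_mul, ← mul_inv, Real.mul_self_sqrt (by norm_num)]
        push_cast at hs ⊢
        linear_combination ((J e (2 * Real.pi * (l : ℝ × ℝ).1) : ℝ) : ℂ) *
          ((J e (2 * Real.pi * (l : ℝ × ℝ).2) : ℝ) : ℂ) * hs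
      rw [h8] at hsum
      have h9 := Complex.hasSum_re hsum
      simpa using h9
    have h10 := (hasSum_zero_iff_of_nonneg (fun l : L => by
      have a1 := J_nonneg e (2 * Real.pi * (l : ℝ × ℝ).1)
      have a2 := J_nonneg e (2 * Real.pi * (l : ℝ × ℝ).2)
      show (0 : ℝ) ≤ _
      positivity)).mp h7
    intro l
    have h11 := congrFun h10 l
    simp only [Pi.zero_apply] at h11
    linarith
  -- there is an element of `L`
  have hne : Nonempty L := by
    by_contra hcon
    rw [not_nonempty_iff] at hcon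
    set e : ℝ := min (-t) (t + 1) with he
    have he0 : 0 < e := lt_min (by linarith) (by linarith)
    have h1 : t ≤ -e := by
      have := min_le_left (-t) (t + 1)
      linarith
    have h2 : e ≤ t + 1 := min_le_right _ _
    set f : Lp ℂ 2 (mu t) := (F1_memLp t e he0).toLp (F1 e) with hf
    have hfe : (f : ℝ × ℝ → ℂ) =ᵐ[mu t] F1 e := MemLp.coeFn_toLp _
    have h0 : f = 0 := by
      have hr := b.hasSum_repr f
      exact hr.unique (hasSum_empty)
    have h3 : ∫ z, F1 e z * expo (0, 0) z ∂(mu t) = 0 := by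
      apply integral_eq_zero_of_ae
      have hz : ((0 : Lp ℂ 2 (mu t)) : ℝ × ℝ → ℂ) =ᵐ[mu t] 0 := Lp.coeFn_zero _ _ _
      rw [h0] at hfe
      filter_upwards [hfe, hz] with z h4 h5
      rw [← h4, h5]
      simp
    rw [int_F1 t e he0 h1 h2] at h3
    have h4 : J e (2 * Real.pi * ((0, 0) : ℝ × ℝ).1) = 0 := by exact_mod_cast h3
    unfold J at h4
    simp at h4
    exact he0.ne' h4
  obtain ⟨l⟩ := hne
  set A : ℝ := |(l : ℝ × ℝ).1| + |(l : ℝ × ℝ).2| + 1 with hA
  have hA1 : 1 ≤ A := by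
    have h1 := abs_nonneg (l : ℝ × ℝ).1
    have h2 := abs_nonneg (l : ℝ × ℝ).2
    linarith
  set e : ℝ := min (min (-t) (t + 1)) ((2 * A)⁻¹) with he
  have he0 : 0 < e := lt_min (lt_min (by linarith) (by linarith)) (by positivity)
  have h1 : t ≤ -e := by
    have := (min_le_left (min (-t) (t + 1)) ((2 * A)⁻¹)).trans (min_le_left (-t) (t + 1))
    linarith
  have h2 : e ≤ t + 1 :=
    (min_le_left (min (-t) (t + 1)) ((2 * A)⁻¹)).trans (min_le_right (-t) (t + 1))
  have h3 : e * A < 1 := by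
    have h4 : e ≤ (2 * A)⁻¹ := min_le_right _ _
    calc e * A ≤ (2 * A)⁻¹ * A := by gcongr
      _ = 1 / 2 := by field_simp
      _ < 1 := by norm_num
  have h5 := key e he0 h1 h2 l
  have hpi := Real.pi_pos
  have h6 : 0 < J e (2 * Real.pi * (l : ℝ × ℝ).1) := by
    apply J_pos e _ he0
    rw [abs_mul, abs_of_pos (by positivity : (0 : ℝ) < 2 * Real.pi)]
    have h7 : |(l : ℝ × ℝ).1| ≤ A := by
      have := abs_nonneg (l : ℝ × ℝ).2
      linarith
    calc 2 * Real.pi * |(l : ℝ × ℝ).1| * e ≤ 2 * Real.pi * A * e := by gcongr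
      _ = 2 * Real.pi * (e * A) := by ring
      _ < 2 * Real.pi * 1 := by gcongr
      _ = 2 * Real.pi := mul_one _
  have h8 : 0 < J e (2 * Real.pi * (l : ℝ × ℝ).2) := by
    apply J_pos e _ he0
    rw [abs_mul, abs_of_pos (by positivity : (0 : ℝ) < 2 * Real.pi)]
    have h7 : |(l : ℝ × ℝ).2| ≤ A := by
      have := abs_nonneg (l : ℝ × ℝ).1
      linarith
    calc 2 * Real.pi * |(l : ℝ × ℝ).2| * e ≤ 2 * Real.pi * A * e := by gcongr
      _ = 2 * Real.pi * (e * A) := by ring
      _ < 2 * Real.pi * 1 := by gcongr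
      _ = 2 * Real.pi := mul_one _
  have h9 := mul_pos h6 h8
  rw [h5] at h9
  exact lt_irrefl _ h9

end Pool.Agent.Results.MP_476b1b_an.NoOrthonormalBasis
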